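import Pool.Agent.J6H55.FM.Stm3

/-!
# The number of the curves of genus at most one: noetherian induction (module FM-NO2)
-/

set_option autoImplicit false
set_option linter.overlappingInstances false

namespace Pool.Agent.J6H20.FM

open FF Pool.Agent.J6H55.FM
open Pool.Agent.W602.GT (IsForm val coords)
open Pool.Agent.W603.LV (canDeg)
open Pool.Agent.Q271.RC (Nonconst)
open Pool.Agent.Q103.SF (van)

/-- scaling of the homogeneous coordinates -/
theorem scale {β : Type} {M : ℕ} {K : Type} [Field K] [Algebra ℂ K] (b : β → K)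
    (z : Fin (M + 1) → K) (l : K) {F : MvPolynomial (β ⊕ Fin (M + 1)) ℂ} {e : ℕ}
    (hF : MvPolynomial.IsWeightedHomogeneous
      (Sum.elim (fun _ => 0) (fun _ => 1) : β ⊕ Fin (M + 1) → ℕ) F e) :
    rv b (fun i => l * z i) F = l ^ e * rv b z F := by
  unfold rv
  rw [MvPolynomial.aeval_def, MvPolynomial.aeval_def, MvPolynomial.eval₂_eq,
    MvPolynomial.eval₂_eq, Finset.mul_sum]
  refine Finset.sum_congr rfl fun d hd => ?_
  have hw := hF (MvPolynomial.mem_support_iff.1 hd)
  rw [Finsupp.weight_apply, Finsupp.sum] at hw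
  have h1 : ∀ s : β ⊕ Fin (M + 1), Sum.elim b (fun i => l * z i) s =
      l ^ ((Sum.elim (fun _ => 0) (fun _ => 1) : β ⊕ Fin (M + 1) → ℕ) s) * Sum.elim b z s := by
    rintro (s | s) <;> simp
  have h2 : ∏ i ∈ d.support, Sum.elim b (fun i => l * z i) i ^ d i =
      l ^ e * ∏ i ∈ d.support, Sum.elim b z i ^ d i := by
    rw [← hw, ← Finset.prod_pow_eq_pow_sum, ← Finset.prod_mul_distrib]
    refine Finset.prod_congr rfl fun s _ => ?_
    rw [h1 s, mul_pow, ← pow_mul, smul_eq_mul, mul_comm (d s)]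
  rw [h2]
  ring

/-- the coordinates of a point in the field which they generate -/
theorem exists_gen_coords {β : Type} {M : ℕ} {F : Type} [Field F] [Algebra ℂ F] (b : β → F)
    {y : Fin (M + 1) → F} (hy : y ≠ 0) :
    ∃ (s : F) (K : IntermediateField ℂ F) (b' : β → K) (u : Fin (M + 1) → K), s ≠ 0 ∧
      (∀ i, b i = (b' i : F)) ∧ (∀ i, y i = s * (u i : F)) ∧ IsGen b' u := by
  obtain ⟨j, hj'⟩ := Function.ne_iff.1 hy
  have hj : y j ≠ 0 := hj'
  set K := IntermediateField.adjoin ℂ (Set.range b ∪ ratios y) with hK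
  have hmemb : ∀ i, b i ∈ K := fun i =>
    IntermediateField.subset_adjoin ℂ _ (Or.inl ⟨i, rfl⟩)
  have hmem : ∀ i, y i / y j ∈ K := fun i =>
    IntermediateField.subset_adjoin ℂ _ (Or.inr ⟨i, j, hj, rfl⟩)
  refine ⟨y j, K, fun i => ⟨b i, hmemb i⟩, fun i => ⟨y i / y j, hmem i⟩, hj, fun i => rfl,
    fun i => ?_, ⟨?_, ?_⟩⟩
  · show y i = y j * (y i / y j)
    field_simp
  · intro h
    have h1 := congrArg (fun t : K => (t : F)) (congrFun h j)
    simp only [Pi.zero_apply, ZeroMemClass.coe_zero] at h1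
    rw [div_self hj] at h1
    exact one_ne_zero h1
  · apply IntermediateField.lift_injective
    rw [IntermediateField.lift_adjoin, IntermediateField.lift_top]
    refine Eq.trans (congrArg (IntermediateField.adjoin ℂ) ?_) hK.symm
    ext x
    constructor
    · rintro ⟨_, (⟨a, rfl⟩ | ⟨a, c, hc, rfl⟩), rfl⟩
      · exact Or.inl ⟨a, rfl⟩
      · have hc' : y c ≠ 0 := by
          intro h0
          apply hc
          apply Subtype.ext
          show y c / y j = 0
          rw [h0, zero_div]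
        refine Or.inr ⟨a, c, hc', ?_⟩
        show (y a / y j) / (y c / y j) = y a / y c
        field_simp
    · rintro (⟨a, rfl⟩ | ⟨a, c, hc, rfl⟩)
      · exact ⟨_, Or.inl ⟨a, rfl⟩, rfl⟩
      · refine ⟨_, Or.inr ⟨a, c, ?_, rfl⟩, ?_⟩
        · intro h0
          have h1 := congrArg (fun t : K => (t : F)) h0
          have h2 : y c / y j = 0 := h1
          exact (div_ne_zero hc hj) h2
        · show (y a / y j) / (y c / y j) = y a / y c
          field_simp

/-- the generic point of a prime ideal -/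
theorem exists_gen {β : Type} {M : ℕ} (p : Ideal (MvPolynomial (β ⊕ Fin (M + 1)) ℂ))
    [hp : p.IsPrime]
    (hX : ∃ j, (MvPolynomial.X (Sum.inr j) : MvPolynomial (β ⊕ Fin (M + 1)) ℂ) ∉ p) :
    ∃ (L : Type) (_ : Field L) (_ : Algebra ℂ L) (b : β → L) (z : Fin (M + 1) → L), IsGen b z ∧
      ∀ G : MvPolynomial (β ⊕ Fin (M + 1)) ℂ, IsRel G → (rv b z G = 0 ↔ G ∈ p) := by
  classical
  let A := MvPolynomial (β ⊕ Fin (M + 1)) ℂ ⧸ p
  let F := FractionRing A
  let b0 : β → F := fun i => algebraMap A F (Ideal.Quotient.mk p (MvPolynomial.X (Sum.inl i)))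
  let y : Fin (M + 1) → F :=
    fun i => algebraMap A F (Ideal.Quotient.mk p (MvPolynomial.X (Sum.inr i)))
  have hval : ∀ G : MvPolynomial (β ⊕ Fin (M + 1)) ℂ,
      rv b0 y G = algebraMap A F (Ideal.Quotient.mk p G) := by
    intro G
    have h1 : (MvPolynomial.aeval (Sum.elim b0 y) : MvPolynomial (β ⊕ Fin (M + 1)) ℂ →ₐ[ℂ] F) =
        (Algebra.ofId A F |>.restrictScalars ℂ).comp (Ideal.Quotient.mkₐ ℂ p) := by
      apply MvPolynomial.algHom_ext
      rintro (i | i)
      · rw [MvPolynomial.aeval_X]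
        rfl
      · rw [MvPolynomial.aeval_X]
        rfl
    unfold rv
    rw [h1]
    rfl
  have hmem : ∀ G : MvPolynomial (β ⊕ Fin (M + 1)) ℂ, rv b0 y G = 0 ↔ G ∈ p := by
    intro G
    rw [hval, map_eq_zero_iff _ (IsFractionRing.injective A F), Ideal.Quotient.eq_zero_iff_mem]
  have hy : y ≠ 0 := by
    obtain ⟨j, hj⟩ := hX
    intro h0
    apply hj
    rw [← hmem]
    unfold rv
    rw [MvPolynomial.aeval_X, Sum.elim_inr, h0]
    rfl
  obtain ⟨s, K, b, u, hs, hb, hyu, hgen⟩ := exists_gen_coords b0 hy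
  refine ⟨K, inferInstance, inferInstance, b, u, hgen, fun G hG => ?_⟩
  obtain ⟨e, he⟩ := hG
  rw [← hmem]
  have h1 : y = fun i => s * ((u i : K) : F) := funext hyu
  have h0 : b0 = fun i => ((b i : K) : F) := funext hb
  have h3 : rv (fun i => ((b i : K) : F)) (fun i => ((u i : K) : F)) G =
      algebraMap K F (rv b u G) := by
    unfold rv
    have h4 : (Sum.elim (fun i => ((b i : K) : F)) (fun i => ((u i : K) : F)) :
        β ⊕ Fin (M + 1) → F) = fun i => algebraMap K F (Sum.elim b u i) := by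
      funext i
      rcases i with i | i <;> rfl
    rw [h4]
    exact MvPolynomial.aeval_algebraMap_apply F (Sum.elim b u) G
  have h2 : rv b0 y G = s ^ e * algebraMap K F (rv b u G) := by
    rw [← h3, ← scale _ _ s he, ← h1, ← h0]
  rw [h2, mul_eq_zero, or_iff_right (pow_ne_zero _ hs), map_eq_zero]

/-- the closed curves of genus at most one in the fibre and in the zero set of the ideal -/
def Z {β : Type} {M : ℕ} (FF : Set (MvPolynomial (β ⊕ Fin (M + 1)) ℂ))
    (I : Ideal (MvPolynomial (β ⊕ Fin (M + 1)) ℂ)) (c : β → ℂ) :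
    Set (Set (MvPolynomial (Fin (M + 1)) ℂ)) :=
  {V | ∃ (E : Type) (_ : Field E) (_ : Algebra ℂ E) (_ : IsFF ℂ E) (f : Fin (M + 1) → E),
    (∀ G ∈ I, rv (cst E c) f G = 0) ∧ InFibre FF c f ∧ Nonconst f ∧ canDeg ℂ E ≤ 0 ∧ V = van f}

theorem encard_biUnion_le' {ι α : Type} (s : Finset ι) (f : ι → Set α) (A : ι → ℕ)
    (h : ∀ i ∈ s, (f i).encard ≤ A i) :
    (⋃ i ∈ s, f i).encard ≤ ((∑ i ∈ s, A i : ℕ) : ℕ∞) := by
  classical
  induction s using Finset.induction_on with
  | empty => simp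
  | insert a s ha ih =>
    rw [Finset.set_biUnion_insert, Finset.sum_insert ha, Nat.cast_add]
    exact (Set.encard_union_le _ _).trans
      (add_le_add (h a (Finset.mem_insert_self _ _))
        (ih fun i hi => h i (Finset.mem_insert_of_mem hi)))

theorem lt_sup {R : Type} [CommRing R] {I p : Ideal R} (hIp : I ≤ p) {F : R} (hF : F ∉ p) :
    I < p ⊔ Ideal.span {F} := by
  refine lt_of_le_of_lt hIp (lt_of_le_of_ne le_sup_left ?_)
  intro heq
  apply hF
  rw [heq]
  exact (le_sup_right : Ideal.span {F} ≤ p ⊔ Ideal.span {F}) (Ideal.subset_span rfl)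

theorem vanish_sup {β : Type} {M : ℕ} {E : Type} [Field E] [Algebra ℂ E]
    {p : Ideal (MvPolynomial (β ⊕ Fin (M + 1)) ℂ)} {b : β → E} {f : Fin (M + 1) → E}
    (h : ∀ G ∈ p, rv b f G = 0) {F : MvPolynomial (β ⊕ Fin (M + 1)) ℂ} (hF : rv b f F = 0) :
    ∀ G ∈ p ⊔ Ideal.span {F}, rv b f G = 0 := by
  intro H hH
  obtain ⟨a, ha, d, hd, rfl⟩ := Submodule.mem_sup.1 hH
  obtain ⟨c, rfl⟩ := Ideal.mem_span_singleton'.1 hd
  have h1 := h a ha
  unfold rv at h1 hF ⊢
  rw [map_add, map_mul, h1, hF, mul_zero, add_zero]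

/-- module FM-NO2 -/
theorem no2 : Pool.Agent.J6H55.FM.S_no2 := by
  classical
  intro β _ M FF hFF H
  suffices key : ∀ I : Ideal (MvPolynomial (β ⊕ Fin (M + 1)) ℂ), ∃ A : ℕ, ∀ c : β → ℂ,
      (Z FF I c).encard ≤ A by
    obtain ⟨A, hA⟩ := key ⊥
    refine ⟨A, fun c => (Set.encard_le_encard ?_).trans (hA c)⟩
    rintro V ⟨E, i1, i2, i3, f, h1, h2, h3, h4⟩
    refine ⟨E, i1, i2, i3, f, fun G hG => ?_, h1, h2, h3, h4⟩
    rw [Ideal.mem_bot] at hG
    rw [hG]
    exact map_zero _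
  intro I
  induction I using WellFoundedGT.induction with
  | ind I ih =>
    have key : ∀ p ∈ I.minimalPrimes, ∃ A : ℕ, ∀ c : β → ℂ, (Z FF p c).encard ≤ A := by
      intro p hp
      have hpp : p.IsPrime := hp.1.1
      have hIp : I ≤ p := hp.1.2
      by_cases hX : ∃ j, (MvPolynomial.X (Sum.inr j) : MvPolynomial (β ⊕ Fin (M + 1)) ℂ) ∉ p
      · obtain ⟨L, i1, i2, b, z, hgen, hzp⟩ := exists_gen p hX
        by_cases hFp : ∃ F ∈ FF, F ∉ p
        · obtain ⟨F, hF, hFp⟩ := hFp
          obtain ⟨A, hA⟩ := ih _ (lt_sup hIp hFp)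
          refine ⟨A, fun c => (Set.encard_le_encard ?_).trans (hA c)⟩
          rintro V ⟨E, i1, i2, i3, f, h0, h1, h2, h3, h4⟩
          exact ⟨E, i1, i2, i3, f, vanish_sup h0 (h1 F hF), h1, h2, h3, h4⟩
        · push Not at hFp
          obtain ⟨R, A2, hR, hR0, hA2⟩ := H L b z hgen
            (fun F hF => (hzp F (hFF F hF)).2 (hFp F hF))
          have hRp : R ∉ p := fun h => hR0 ((hzp R hR).2 h)
          obtain ⟨A1, hA1⟩ := ih _ (lt_sup hIp hRp)
          refine ⟨A1 + A2, fun c => ?_⟩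
          have hsub : Z FF p c ⊆ Z FF (p ⊔ Ideal.span {R}) c ∪ lowOff b z R c := by
            rintro V ⟨E, j1, j2, j3, f, h0, h1, h2, h3, h4⟩
            by_cases hfR : rv (cst E c) f R = 0
            · exact Or.inl ⟨E, j1, j2, j3, f, vanish_sup h0 hfR, h1, h2, h3, h4⟩
            · refine Or.inr ⟨E, j1, j2, j3, f, ⟨?_, fun G hG hG0 => h0 G ((hzp G hG).1 hG0)⟩,
                hfR, h2, h3, h4⟩
              intro hf
              obtain ⟨i, j, hj, -⟩ := h2
              exact hj (congrFun hf j)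
          refine (Set.encard_le_encard hsub).trans ((Set.encard_union_le _ _).trans ?_)
          rw [Nat.cast_add]
          exact add_le_add (hA1 c) (hA2 c)
      · push Not at hX
        refine ⟨0, fun c => ?_⟩
        have hemp : Z FF p c = ∅ := by
          rw [Set.eq_empty_iff_forall_notMem]
          rintro V ⟨E, j1, j2, j3, f, h0, h1, ⟨i, j, hj, -⟩, h3, h4⟩
          have h5 := h0 _ (hX j)
          unfold rv at h5
          rw [MvPolynomial.aeval_X] at h5
          exact hj h5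
        rw [hemp]
        simp
    choose! A hA using key
    have hfin : I.minimalPrimes.Finite := Ideal.finite_minimalPrimes_of_isNoetherianRing _ I
    refine ⟨∑ p ∈ hfin.toFinset, A p, fun c => ?_⟩
    have hsub : Z FF I c ⊆ ⋃ p ∈ hfin.toFinset, Z FF p c := by
      rintro V ⟨E, j1, j2, j3, f, h0, h1, h2, h3, h4⟩
      have hker : (RingHom.ker (MvPolynomial.aeval (Sum.elim (cst E c) f) :
        MvPolynomial (β ⊕ Fin (M + 1)) ℂ →ₐ[ℂ] E)).IsPrime := RingHom.ker_isPrime _
      obtain ⟨p, hp, hpf⟩ := Ideal.exists_minimalPrimes_le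
        (I := I) (J := RingHom.ker (MvPolynomial.aeval (Sum.elim (cst E c) f) :
          MvPolynomial (β ⊕ Fin (M + 1)) ℂ →ₐ[ℂ] E))
        (fun G hG => RingHom.mem_ker.2 (h0 G hG))
      refine Set.mem_iUnion₂.2 ⟨p, (Set.Finite.mem_toFinset hfin).2 hp, ?_⟩
      exact ⟨E, j1, j2, j3, f, fun G hG => RingHom.mem_ker.1 (hpf hG), h1, h2, h3, h4⟩
    exact (Set.encard_le_encard hsub).trans (encard_biUnion_le' _ _ A fun p hp =>
      hA p ((Set.Finite.mem_toFinset hfin).1 hp) c)

end Pool.Agent.J6H20.FM
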